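import Pool.Agent.Y928.PL.Mixed
import Pool.Agent.Y928.JL.Fam

/-!
# Linear complexity of finitely many numbers with a simultaneous measure
-/

set_option autoImplicit false

namespace Pool.Agent.Y928.PL

open Finset
open Pool.Agent.W47.JL
open Pool.Agent.Y928.JL.Fam (digit Recurrence jointComplexity F joint_attained)

/-- linear complexity of the first `L` terms `s_1, …, s_L` -/
noncomputable def cpx (s : ℕ → ℤ) (L : ℕ) : ℕ := sInf {m | ∃ c : ℕ → ℚ, Recurrence s c L m}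

lemma cpx_attained (s : ℕ → ℤ) (L : ℕ) : ∃ c : ℕ → ℚ, Recurrence s c L (cpx s L) := by
  refine Nat.sInf_mem (s := {m | ∃ c : ℕ → ℚ, Recurrence s c L m}) ?_
  exact ⟨L, fun _ => 0, fun i h1 h2 => by omega⟩

theorem finite_family (T : Finset ℕ) (hT : T.Nonempty) (x : ℕ → ℝ) (μ c0 : ℝ) (hμ : 1 < μ)
    (hc0 : 0 < c0)
    (hM : ∀ q : ℕ, 1 ≤ q → ∀ p : ℕ → ℤ, ∃ j ∈ T, c0 ≤ (q : ℝ) ^ (μ - 1) * |(q : ℝ) * x j - p j|)
    (h : ℕ) :
    ∃ C : ℝ, 0 < C ∧
      (∀ b : ℕ, 2 ≤ b → ∀ k L : ℕ, (L : ℝ) ≤ (∑ i ∈ range (k + 1), μ ^ (i + 1)) *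
        F C (jointComplexity b T x k L)) ∧
      ∀ b : ℕ → ℕ, (∀ j ∈ T, 2 ≤ b j) → ∀ s : ℕ → ℕ → ℤ,
        (∀ j ∈ T, ∀ i, |s j i| ≤ ((b j ^ h : ℕ) : ℤ)) →
        (∀ j ∈ T, ∃ n : ℤ,
          HasSum (fun i : ℕ => (s j (i + 1) : ℝ) / (b j : ℝ) ^ (i + 1)) (x j - n)) →
        ∀ L : ℕ → ℕ, ∃ j ∈ T, (L j : ℝ) * Real.log (b j) ≤
          F C (cpx (s j) (L j)) * Real.log (b j) +
            μ * ∑ i ∈ T, F C (cpx (s i) (L i)) * Real.log (b i) := by
  classical
  obtain ⟨C1, hC1, h1⟩ := Pool.Agent.Y928.JL.uniform μ c0 0 hμ hc0 le_rfl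
  obtain ⟨C2, hC2, h2⟩ := mixed (h + 1) (by omega) μ c0 hμ.le hc0
  have hF1 : ∀ m : ℕ, (m : ℝ) + C1 * err m ≤ F (C1 + C2) m := by
    intro m
    have := err_ge m
    have e : F (C1 + C2) m = m + (C1 + C2) * err m := rfl
    rw [e]
    nlinarith
  have hF2 : ∀ m : ℕ, (m : ℝ) + C2 * err m ≤ F (C1 + C2) m := by
    intro m
    have := err_ge m
    have e : F (C1 + C2) m = m + (C1 + C2) * err m := rfl
    rw [e]
    nlinarith
  refine ⟨C1 + C2, by positivity, ?_, ?_⟩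
  · intro b hb k L
    obtain ⟨s, c, E, hE, hs⟩ := joint_attained b hb T x k L
    obtain ⟨m, hm⟩ : ∃ m, m = jointComplexity b T x k L := ⟨_, rfl⟩
    rw [← hm] at hs ⊢
    obtain ⟨e⟩ : Nonempty (Fin T.card ≃ T) := ⟨(Finset.equivFin T).symm⟩
    have hmeas : Pool.Agent.W47.JL.Meas T.card (fun j => x (e j)) μ c0 0 := by
      intro q hq p
      obtain ⟨i, hi, hpi⟩ := hM q hq (fun i => if hi : i ∈ T then p (e.symm ⟨i, hi⟩) else 0)
      refine ⟨e.symm ⟨i, hi⟩, ?_⟩
      rw [dif_pos hi] at hpi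
      have e1 : x (e (e.symm ⟨i, hi⟩)) = x i := by rw [Equiv.apply_symm_apply]
      rw [Real.rpow_zero, mul_one]
      beta_reduce
      rw [e1]
      exact hpi
    have h3 := h1 T.card (fun j => x (e j)) hmeas b hb L m k (fun j l => s (e j) (l + 1))
      (fun j l _ => (hs (e j) (e j).2).1 _)
      ⟨E.image (· - 1), Finset.card_image_le.trans hE, by
        intro l hl hlE j
        refine (hs (e j) (e j).2).2.1 (l + 1) (Finset.mem_Icc.mpr ⟨by omega, by omega⟩) ?_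
        intro hE'
        apply hlE
        rw [mem_image]
        exact ⟨l + 1, hE', by omega⟩⟩
      ⟨c, by
        intro j i hi
        have h1 := (hs (e j) (e j).2).2.2 (i + 1) (by omega) (by omega)
        rw [show i + m + 1 = i + 1 + m by ring, h1]
        exact Finset.sum_congr rfl fun l _ => by rw [show i + l + 1 = i + 1 + l by ring]⟩
    refine h3.trans (mul_le_mul_of_nonneg_left (hF1 m) ?_)
    exact Finset.sum_nonneg fun i _ => by positivity
  · intro b hb s hs hsum L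
    have hs' : ∀ j ∈ T, ∀ i, |s j (i + 1)| ≤ ((b j ^ (h + 1) : ℕ) : ℤ) := by
      intro j hj i
      refine (hs j hj (i + 1)).trans ?_
      have : b j ^ h ≤ b j ^ (h + 1) := Nat.pow_le_pow_right (by have := hb j hj; omega) (by omega)
      exact_mod_cast this
    obtain ⟨j, hj, h3⟩ := h2 T x hT hM b hb (fun j i => s j (i + 1)) hs' hsum L
      (fun j => cpx (s j) (L j)) (by
        intro j hj
        obtain ⟨c, hc⟩ := cpx_attained (s j) (L j)
        refine ⟨c, fun i hi => ?_⟩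
        have h1 := hc (i + 1) (by omega) (by omega)
        rw [show i + cpx (s j) (L j) + 1 = i + 1 + cpx (s j) (L j) by ring, h1]
        exact Finset.sum_congr rfl fun l _ => by rw [show i + l + 1 = i + 1 + l by ring])
    refine ⟨j, hj, h3.trans ?_⟩
    have hl : ∀ i ∈ T, 0 ≤ Real.log (b i) := fun i hi =>
      Real.log_nonneg (by have := hb i hi; exact_mod_cast (by omega : 1 ≤ b i))
    refine add_le_add (mul_le_mul_of_nonneg_right (hF2 _) (hl j hj)) ?_
    refine mul_le_mul_of_nonneg_left (Finset.sum_le_sum fun i hi => ?_) (by linarith)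
    exact mul_le_mul_of_nonneg_right (hF2 _) (hl i hi)

end Pool.Agent.Y928.PL
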