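import Pool.Agent.W47.JL.Single

/-!
# Rational approximations from short relations of bounded integer representations
-/

set_option autoImplicit false

namespace Pool.Agent.Y928.PL

open Finset Polynomial
open Pool.Agent.H831R3.LC (W W_eq W_mul W_sub)
open Pool.Agent.W47.JL

/-- a representation `x = ∑ s_j b^(-j-1)` has small partial remainders -/
lemma remainders (b Bd : ℕ) (hb : 2 ≤ b) (s : ℕ → ℤ) (hs : ∀ i, |s i| ≤ Bd) (x : ℝ)
    (hx : HasSum (fun j : ℕ => (s j : ℝ) / (b : ℝ) ^ (j + 1)) x)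
    (A : ℕ → ℤ) (hA0 : A 0 = 0) (hA1 : ∀ i, A (i + 1) = b * A i + s i) (i : ℕ) :
    HasSum (fun j : ℕ => (s (i + j) : ℝ) / (b : ℝ) ^ (j + 1)) (x * (b : ℝ) ^ i - A i) ∧
      |x * (b : ℝ) ^ i - A i| ≤ Bd := by
  have hbR : (2 : ℝ) ≤ b := by exact_mod_cast hb
  have hb0 : (0 : ℝ) < b := by linarith
  have h1 : HasSum (fun j : ℕ => (s (i + j) : ℝ) / (b : ℝ) ^ (j + 1)) (x * (b : ℝ) ^ i - A i) := by
    induction i with
    | zero => simpa [hA0] using hx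
    | succ i ih =>
      have h2 := (hasSum_nat_add_iff' 1).2 ih
      have h3 := h2.mul_left (b : ℝ)
      have e1 : (b : ℝ) * (x * (b : ℝ) ^ i - A i - ∑ j ∈ range 1, (s (i + j) : ℝ) / (b : ℝ) ^ (j + 1)) =
          x * (b : ℝ) ^ (i + 1) - A (i + 1) := by
        rw [sum_range_one, hA1]
        push_cast
        simp only [add_zero, pow_one]
        field_simp
        ring
      rw [e1] at h3
      have e2 : (fun j : ℕ => (s (i + 1 + j) : ℝ) / (b : ℝ) ^ (j + 1)) =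
          fun j : ℕ => (b : ℝ) * ((s (i + (j + 1)) : ℝ) / (b : ℝ) ^ (j + 1 + 1)) := by
        funext j
        rw [show i + 1 + j = i + (j + 1) by ring, pow_succ (b : ℝ) (j + 1)]
        field_simp
      rw [e2]
      exact h3
  refine ⟨h1, ?_⟩
  have h2 : HasSum (fun j : ℕ => (Bd : ℝ) / 2 / 2 ^ j) Bd := hasSum_geometric_two' _
  have h3 := tsum_of_norm_bounded h2 (f := fun j : ℕ => (s (i + j) : ℝ) / (b : ℝ) ^ (j + 1)) (by
    intro j
    rw [Real.norm_eq_abs, abs_div, abs_of_nonneg (by positivity : (0 : ℝ) ≤ (b : ℝ) ^ (j + 1)),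
      div_div, ← pow_succ']
    have h4 : |(s (i + j) : ℝ)| ≤ Bd := by exact_mod_cast hs (i + j)
    have h5 : (2 : ℝ) ^ (j + 1) ≤ (b : ℝ) ^ (j + 1) := pow_le_pow_left₀ (by norm_num) hbR _
    exact div_le_div₀ (Nat.cast_nonneg _) h4 (by positivity) h5)
  rw [h1.tsum_eq, Real.norm_eq_abs] at h3
  exact h3

/-- rational approximation from a relation -/
theorem approxR (x : ℝ) (b H Bd r D : ℕ) (s : ℕ → ℤ) (t : ℤ[X])
    (ht : ∀ i, |t.coeff i| ≤ H) (hD : t.natDegree ≤ D) (hr : ∀ i < r, W t s i = 0)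
    (A : ℕ → ℤ) (hA1 : ∀ i, A (i + 1) = b * A i + s i)
    (hx : ∀ i ≤ r + D, |x * (b : ℝ) ^ i - A i| ≤ Bd) :
    ∃ p : ℤ, |((t.eval (b : ℤ) : ℤ) : ℝ) * x - p| * (b : ℝ) ^ r ≤ (D + 1) * H * Bd := by
  obtain ⟨G, hG⟩ : ∃ G, G = W t A := ⟨_, rfl⟩
  have hd : s = W (X - C (b : ℤ)) A := by
    funext i
    rw [W_sub, hA1]
    ring
  have hstep : ∀ i < r, G (i + 1) = b * G i := by
    intro i hi
    have h1 := hr i hi
    rw [hd, ← W_mul, mul_comm, W_mul, W_sub, ← hG] at h1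
    linarith
  have hpow : ∀ i ≤ r, G i = (b : ℤ) ^ i * G 0 := by
    intro i
    induction i with
    | zero => intro _; simp
    | succ i ihi =>
      intro hi
      rw [hstep i (by omega), ihi (by omega)]
      ring
  refine ⟨G 0, ?_⟩
  have h2 : G r = ∑ j ∈ range (D + 1), t.coeff j * A (r + j) := by
    rw [hG, W_eq t _ r (D + 1) (by omega)]
  have h3 : t.eval (b : ℤ) = ∑ j ∈ range (D + 1), t.coeff j * (b : ℤ) ^ j :=
    eval_eq_sum_range' (by omega) _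
  have h4 : ((b : ℝ) ^ r * (G 0 : ℝ)) = ∑ j ∈ range (D + 1), (t.coeff j : ℝ) * (A (r + j) : ℝ) := by
    have := congrArg (fun z : ℤ => (z : ℝ)) ((hpow r le_rfl).symm.trans h2)
    push_cast at this
    exact this
  have h5 : ((t.eval (b : ℤ) : ℤ) : ℝ) = ∑ j ∈ range (D + 1), (t.coeff j : ℝ) * (b : ℝ) ^ j := by
    rw [h3]
    push_cast
    rfl
  have h6 : (((t.eval (b : ℤ) : ℤ) : ℝ) * x - G 0) * (b : ℝ) ^ r =
      ∑ j ∈ range (D + 1), (t.coeff j : ℝ) * (x * (b : ℝ) ^ (r + j) - A (r + j)) := by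
    have e1 : (((t.eval (b : ℤ) : ℤ) : ℝ) * x - G 0) * (b : ℝ) ^ r =
        ((t.eval (b : ℤ) : ℤ) : ℝ) * (x * (b : ℝ) ^ r) - (b : ℝ) ^ r * (G 0 : ℝ) := by ring
    rw [e1, h4, h5, Finset.sum_mul, ← Finset.sum_sub_distrib]
    refine Finset.sum_congr rfl fun j _ => ?_
    rw [pow_add]
    ring
  rw [← abs_of_nonneg (by positivity : (0 : ℝ) ≤ (b : ℝ) ^ r), ← abs_mul, h6]
  calc |∑ j ∈ range (D + 1), (t.coeff j : ℝ) * (x * (b : ℝ) ^ (r + j) - A (r + j))|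
      ≤ ∑ j ∈ range (D + 1), |(t.coeff j : ℝ) * (x * (b : ℝ) ^ (r + j) - A (r + j))| :=
        Finset.abs_sum_le_sum_abs _ _
    _ ≤ ∑ _j ∈ range (D + 1), (H : ℝ) * Bd := by
        refine Finset.sum_le_sum fun j hj => ?_
        rw [mem_range] at hj
        rw [abs_mul]
        have h1 : |(t.coeff j : ℝ)| ≤ H := by exact_mod_cast ht j
        exact mul_le_mul h1 (hx (r + j) (by omega)) (abs_nonneg _) (Nat.cast_nonneg _)
    _ = _ := by rw [Finset.sum_const, card_range, nsmul_eq_mul]; push_cast; ring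

lemma triv (x e : ℝ) (b : ℕ) (hb : 2 ≤ b) (he : 0 ≤ e) :
    ∃ q : ℕ, 1 ≤ q ∧ ∃ p : ℤ, (q : ℝ) * |(q : ℝ) * x - p| ≤ (b : ℝ) ^ e := by
  refine ⟨1, le_rfl, round x, ?_⟩
  have hbR : (2 : ℝ) ≤ b := by exact_mod_cast hb
  have h1 := abs_sub_round x
  have h2 : (1 : ℝ) ≤ (b : ℝ) ^ e := Real.one_le_rpow (by linarith) he
  push_cast
  rw [one_mul, one_mul]
  linarith

/-- the core: a short recurrence of a representation gives a good approximation -/
theorem core (h b : ℕ) (hh : 1 ≤ h) (hb : 2 ≤ b) (x : ℝ) (s : ℕ → ℤ)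
    (hs : ∀ i, |s i| ≤ (b ^ h : ℕ))
    (hx : HasSum (fun j : ℕ => (s j : ℝ) / (b : ℝ) ^ (j + 1)) x) (L m : ℕ) (c : ℕ → ℚ)
    (hc : ∀ i, i + m < L → (s (i + m) : ℚ) = ∑ l ∈ range m, c l * (s (i + l) : ℚ)) :
    ∃ q : ℕ, 1 ≤ q ∧ ∃ p : ℤ, (q : ℝ) * |(q : ℝ) * x - p| ≤
      (b : ℝ) ^ (2 * ((m : ℝ) + 15 * h * err m + h) - L) := by
  obtain ⟨k0, K, hk0, hK, hpar⟩ := params m
  have hhR : (1 : ℝ) ≤ h := by exact_mod_cast hh
  have hbR : (2 : ℝ) ≤ b := by exact_mod_cast hb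
  have hb0 : (0 : ℝ) < b := by linarith
  have hlb0 : 0 < Real.log b := Real.log_pos (by linarith)
  have hm0 : (0 : ℝ) ≤ m := Nat.cast_nonneg m
  have hk00 : (0 : ℝ) ≤ k0 := Nat.cast_nonneg k0
  have herr := err_ge m
  obtain ⟨D, hD⟩ : ∃ D, D = m + k0 := ⟨_, rfl⟩
  have hDR : (D : ℝ) = m + k0 := by rw [hD]; push_cast; ring
  obtain ⟨H, hH⟩ : ∃ H : ℕ, H = ((m + 1 + k0) * b ^ h) ^ K := ⟨_, rfl⟩
  obtain ⟨X', hX'⟩ : ∃ X' : ℝ, X' = ((D : ℝ) + 1) * H * (b ^ h : ℕ) := ⟨_, rfl⟩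
  have hH1 : 1 ≤ H := by rw [hH]; exact Nat.one_le_pow _ _ (by positivity)
  have hHR : (1 : ℝ) ≤ H := by exact_mod_cast hH1
  have hX'1 : 1 ≤ X' := by
    rw [hX']
    have h1 : (1 : ℝ) ≤ ((b ^ h : ℕ) : ℝ) := by exact_mod_cast Nat.one_le_pow _ _ (by omega)
    have h2 : (1 : ℝ) ≤ ((D : ℝ) + 1) * H := by nlinarith [Nat.cast_nonneg (α := ℝ) D]
    nlinarith
  have hX'0 : 0 < X' := by linarith
  obtain ⟨M', hM'⟩ : ∃ M' : ℝ, M' = D + Real.log X' / Real.log b := ⟨_, rfl⟩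
  have hbM : (b : ℝ) ^ M' = (b : ℝ) ^ D * X' := by
    rw [hM', Real.rpow_add hb0, Real.rpow_natCast]
    congr 1
    rw [Real.rpow_def_of_pos hb0, mul_div_cancel₀ _ hlb0.ne', Real.exp_log hX'0]
  have hM'le : M' ≤ m + 15 * h * err m + h := by
    have h1 := hpar b hbR
    obtain ⟨Y, hY⟩ : ∃ Y : ℝ, Y = ((m : ℝ) + k0 + 1) * (((m : ℝ) + 1 + k0) * b) ^ K := ⟨_, rfl⟩
    rw [← hY] at h1
    have hYe : Real.log Y = Real.log ((m : ℝ) + k0 + 1) + K * (Real.log ((m : ℝ) + 1 + k0) +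
        Real.log b) := by
      rw [hY, Real.log_mul (by positivity) (by positivity), Real.log_pow,
        Real.log_mul (by positivity) (by positivity)]
    have hXe : Real.log X' = Real.log ((m : ℝ) + k0 + 1) + K * (Real.log ((m : ℝ) + 1 + k0) +
        h * Real.log b) + h * Real.log b := by
      rw [hX', hH, hDR]
      push_cast
      rw [Real.log_mul (by positivity) (by positivity), Real.log_mul (by positivity) (by positivity),
        Real.log_pow, Real.log_mul (by positivity) (by positivity), Real.log_pow]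
    have hl1 : 0 ≤ Real.log ((m : ℝ) + k0 + 1) := Real.log_nonneg (by linarith)
    have hl2 : 0 ≤ Real.log ((m : ℝ) + 1 + k0) := Real.log_nonneg (by linarith)
    have hK0 : (0 : ℝ) ≤ K := Nat.cast_nonneg K
    have h2 : Real.log X' ≤ h * Real.log Y + h * Real.log b := by
      rw [hXe, hYe]
      have e1 : Real.log ((m : ℝ) + k0 + 1) ≤ h * Real.log ((m : ℝ) + k0 + 1) := by nlinarith
      have e2 : K * Real.log ((m : ℝ) + 1 + k0) ≤ h * (K * Real.log ((m : ℝ) + 1 + k0)) := by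
        nlinarith [mul_nonneg hK0 hl2]
      nlinarith
    have h3 : Real.log X' / Real.log b ≤ h * (Real.log Y / Real.log b) + h := by
      rw [div_le_iff₀ hlb0]
      have e1 : (h * (Real.log Y / Real.log b) + h) * Real.log b = h * Real.log Y + h * Real.log b := by
        field_simp
      rw [e1]
      exact h2
    have h4 : Real.log Y / Real.log b ≤ m + 15 * err m - (m + k0) := by linarith
    have h5 := mul_le_mul_of_nonneg_left h4 (by linarith : (0 : ℝ) ≤ h)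
    rw [hM', hDR]
    nlinarith
  -- it suffices to have the bound with `M'`
  have hfin : (∃ q : ℕ, 1 ≤ q ∧ ∃ p : ℤ, (q : ℝ) * |(q : ℝ) * x - p| ≤ (b : ℝ) ^ (2 * M' - L)) →
      ∃ q : ℕ, 1 ≤ q ∧ ∃ p : ℤ, (q : ℝ) * |(q : ℝ) * x - p| ≤
      (b : ℝ) ^ (2 * ((m : ℝ) + 15 * h * err m + h) - L) := by
    rintro ⟨q, hq, p, hp⟩
    exact ⟨q, hq, p, hp.trans (Real.rpow_le_rpow_of_exponent_le (by linarith) (by linarith))⟩
  apply hfin
  have hM'D : (D : ℝ) ≤ M' := by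
    rw [hM']
    have := div_nonneg (Real.log_nonneg hX'1) hlb0.le
    linarith
  have hD0 : (0 : ℝ) ≤ D := Nat.cast_nonneg D
  by_cases hL : D ≤ L
  swap
  · have : (L : ℝ) ≤ D := by exact_mod_cast (by omega : L ≤ D)
    exact triv x _ b hb (by linarith)
  obtain ⟨r, hr⟩ : ∃ r, L = r + D := ⟨L - D, by omega⟩
  have hrR : (L : ℝ) = r + D := by rw [hr]; push_cast; ring
  by_cases hbig : (D + 1) * H * b ^ h < b ^ r
  swap
  · push Not at hbig
    have h1 : (b : ℝ) ^ r ≤ X' := by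
      rw [hX']
      exact_mod_cast hbig
    have h2 := Real.log_le_log (by positivity) h1
    rw [Real.log_pow] at h2
    have h3 : (r : ℝ) ≤ Real.log X' / Real.log b := by
      rw [le_div_iff₀ hlb0]; exact h2
    exact triv x _ b hb (by rw [hrR]; linarith)
  -- truncate
  obtain ⟨A, hA0, hA1⟩ : ∃ A : ℕ → ℤ, A 0 = 0 ∧ ∀ i, A (i + 1) = b * A i + s i :=
    ⟨fun i => Nat.rec 0 (fun i z => (b : ℤ) * z + s i) i, rfl, fun _ => rfl⟩
  obtain ⟨a, ha⟩ : ∃ a : ℕ → ℤ, a = fun i => if i < L then s i else 0 := ⟨_, rfl⟩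
  have ha1 : ∀ i, i < L → a i = s i := by
    intro i hi
    rw [ha]; simp [hi]
  have ha2 : ∀ i, |a i| ≤ (b ^ h : ℕ) := by
    intro i
    by_cases hi : i < L
    · rw [ha1 i hi]; exact hs i
    · rw [ha]; simp [hi]
  obtain ⟨A', hA'0, hA'1⟩ : ∃ A : ℕ → ℤ, A 0 = 0 ∧ ∀ i, A (i + 1) = b * A i + a i :=
    ⟨fun i => Nat.rec 0 (fun i z => (b : ℤ) * z + a i) i, rfl, fun _ => rfl⟩
  have hAA : ∀ i ≤ L, A' i = A i := by
    intro i
    induction i with
    | zero => intro _; rw [hA0, hA'0]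
    | succ i ih =>
      intro hi
      rw [hA'1, hA1, ih (by omega), ha1 i (by omega)]
  obtain ⟨t, ht0, htd, htH, htr⟩ := Pool.Agent.W928.JL.small 1 (fun _ => a) (b ^ h)
    (Nat.one_le_pow _ _ (by omega))
    (fun _ => ha2) m k0 r L K hk0 hK
    (by omega) c (fun _ i hi => by
      rw [ha1 _ (by omega), hc i hi]
      refine Finset.sum_congr rfl fun l hl => ?_
      rw [mem_range] at hl
      rw [ha1 _ (by omega)])
  obtain ⟨t', htd', htH', htr', ht0'⟩ := Pool.Agent.W639.JL.desc 1 (fun _ => a) (b ^ h) b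
    H D r hb (fun _ => ha2) hbig t (by rw [hD]; exact htd) ht0 (by rw [hH]; exact htH) htr
  obtain ⟨p, hp⟩ := approxR x b H (b ^ h) r D a t' htH' htd' (htr' 0) A' hA'1 (fun i hi => by
    rw [hAA i (by omega)]
    exact (remainders b (b ^ h) hb s hs x hx A hA0 hA1 i).2)
  obtain ⟨q, hq⟩ : ∃ q : ℕ, q = (t'.eval (b : ℤ)).natAbs := ⟨_, rfl⟩
  have hq1 : 1 ≤ q := by rw [hq]; exact Int.natAbs_pos.2 ht0'
  have hqR : (q : ℝ) = |((t'.eval (b : ℤ) : ℤ) : ℝ)| := by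
    rw [hq, Nat.cast_natAbs, Int.cast_abs]
  have hqle : (q : ℝ) ≤ (b : ℝ) ^ D * X' := by
    have h1 := eval_le t' H D b (by omega) htH' htd'
    have h2 : |((t'.eval (b : ℤ) : ℤ) : ℝ)| ≤ ((D : ℝ) + 1) * H * (b : ℝ) ^ D := by exact_mod_cast h1
    have h3 : (1 : ℝ) ≤ ((b ^ h : ℕ) : ℝ) := by exact_mod_cast Nat.one_le_pow _ _ (by omega)
    rw [hqR, hX']
    calc _ ≤ ((D : ℝ) + 1) * H * (b : ℝ) ^ D := h2
      _ = (b : ℝ) ^ D * (((D : ℝ) + 1) * H * 1) := by ring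
      _ ≤ (b : ℝ) ^ D * (((D : ℝ) + 1) * H * ((b ^ h : ℕ) : ℝ)) := by gcongr
  obtain ⟨p', hp'⟩ : ∃ p' : ℤ, |(q : ℝ) * x - p'| = |((t'.eval (b : ℤ) : ℤ) : ℝ) * x - p| := by
    rcases abs_cases ((t'.eval (b : ℤ) : ℤ) : ℝ) with ⟨h1, _⟩ | ⟨h1, _⟩
    · exact ⟨p, by rw [hqR, h1]⟩
    · refine ⟨-p, ?_⟩
      rw [hqR, h1, ← abs_neg]
      congr 1
      push_cast
      ring
  refine ⟨q, hq1, p', ?_⟩
  rw [hp']
  have hpX : |((t'.eval (b : ℤ) : ℤ) : ℝ) * x - p| * (b : ℝ) ^ r ≤ X' := by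
    rw [hX']
    push_cast at hp ⊢
    exact hp
  have e1 : (b : ℝ) ^ (2 * M' - L) = (b : ℝ) ^ D * X' * X' / (b : ℝ) ^ r := by
    rw [Real.rpow_sub hb0, two_mul, Real.rpow_add hb0, hbM, Real.rpow_natCast, hr, pow_add]
    field_simp
  rw [e1, le_div_iff₀ (by positivity)]
  calc (q : ℝ) * |((t'.eval (b : ℤ) : ℤ) : ℝ) * x - p| * (b : ℝ) ^ r =
      (q : ℝ) * (|((t'.eval (b : ℤ) : ℤ) : ℝ) * x - p| * (b : ℝ) ^ r) := by ring
    _ ≤ ((b : ℝ) ^ D * X') * X' := mul_le_mul hqle hpX (by positivity) (by positivity)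

/-- monotonicity of the error term -/
lemma err_mono {m n : ℕ} (h : m ≤ n) : err m ≤ err n := by
  unfold err
  apply Real.sqrt_le_sqrt
  have h1 : (m : ℝ) ≤ n := by exact_mod_cast h
  have h0 : (0 : ℝ) ≤ m := Nat.cast_nonneg m
  have h2 : Real.log ((m : ℝ) + 2) ≤ Real.log ((n : ℝ) + 2) :=
    Real.log_le_log (by linarith) (by linarith)
  have h3 : 0 ≤ Real.log ((m : ℝ) + 2) := Real.log_nonneg (by linarith)
  exact mul_le_mul (by linarith) h2 h3 (by linarith)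

/-- the same for arbitrary relations -/
theorem coreR (h b : ℕ) (hh : 1 ≤ h) (hb : 2 ≤ b) (x : ℝ) (s : ℕ → ℤ)
    (hs : ∀ i, |s i| ≤ (b ^ h : ℕ))
    (hx : HasSum (fun j : ℕ => (s j : ℝ) / (b : ℝ) ^ (j + 1)) x) (L m : ℕ) (c : ℕ → ℚ)
    (hc0 : ∃ l ≤ m, c l ≠ 0)
    (hc : ∀ i, i + m < L → ∑ l ∈ range (m + 1), c l * (s (i + l) : ℚ) = 0) :
    ∃ q : ℕ, 1 ≤ q ∧ ∃ p : ℤ, (q : ℝ) * |(q : ℝ) * x - p| ≤
      (b : ℝ) ^ (2 * ((m : ℝ) + 15 * h * err m + h) - L) := by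
  have hhR : (1 : ℝ) ≤ h := by exact_mod_cast hh
  have hbR : (2 : ℝ) ≤ b := by exact_mod_cast hb
  have hm0 : (0 : ℝ) ≤ m := Nat.cast_nonneg m
  have herr := err_ge m
  rcases le_or_gt L m with hLm | hLm
  · have h1 : (L : ℝ) ≤ m := by exact_mod_cast hLm
    exact triv x _ b hb (by nlinarith)
  obtain ⟨j0, hj0, hcj0⟩ := hc0
  have hex : ∃ m' ≤ m, c m' ≠ 0 ∧ ∀ j ≤ m, c j ≠ 0 → j ≤ m' := by
    obtain ⟨m', h1, h2⟩ := Finset.exists_max_image ((range (m + 1)).filter (fun j => c j ≠ 0)) id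
      ⟨j0, by rw [mem_filter, mem_range]; exact ⟨by omega, hcj0⟩⟩
    rw [mem_filter, mem_range] at h1
    exact ⟨m', by omega, h1.2, fun j hj hcj => h2 j (by rw [mem_filter, mem_range]; exact ⟨by omega, hcj⟩)⟩
  obtain ⟨m', hm', hcm', hmax⟩ := hex
  obtain ⟨L', hL'⟩ : ∃ L', L' = L - (m - m') := ⟨_, rfl⟩
  have hLL' : (L : ℝ) = L' + (m - m') := by
    have : L = L' + (m - m') := by omega
    rw [this]
    push_cast
    rw [Nat.cast_sub hm']
  have hmm : (m' : ℝ) ≤ m := by exact_mod_cast hm'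
  have hrec : ∀ i, i + m' < L' → (s (i + m') : ℚ) =
      ∑ l ∈ range m', (-(c l / c m')) * (s (i + l) : ℚ) := by
    intro i hi
    have h1 := hc i (by omega)
    have h2 : ∑ l ∈ range (m + 1), c l * (s (i + l) : ℚ) =
        ∑ l ∈ range (m' + 1), c l * (s (i + l) : ℚ) := by
      symm
      apply Finset.sum_subset (by intro x hx; rw [mem_range] at hx ⊢; omega)
      intro l hl1 hl2
      rw [mem_range] at hl1 hl2
      have : c l = 0 := by
        by_contra h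
        have := hmax l (by omega) h
        omega
      rw [this, zero_mul]
    rw [h2, sum_range_succ] at h1
    have h3 : ∑ l ∈ range m', (-(c l / c m')) * (s (i + l) : ℚ) =
        -(∑ l ∈ range m', c l * (s (i + l) : ℚ)) / c m' := by
      rw [neg_div, Finset.sum_div, ← Finset.sum_neg_distrib]
      refine sum_congr rfl fun l _ => ?_
      field_simp
    rw [h3, eq_div_iff hcm']
    linarith
  obtain ⟨q, hq, p, hp⟩ := core h b hh hb x s hs hx L' m' (fun l => -(c l / c m')) hrec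
  refine ⟨q, hq, p, hp.trans (Real.rpow_le_rpow_of_exponent_le (by linarith) ?_)⟩
  have := mul_le_mul_of_nonneg_left (err_mono hm') (by linarith : (0 : ℝ) ≤ h)
  rw [hLL']
  nlinarith

/-- a relation over a field of characteristic zero gives a relation over the rationals -/
lemma rat_rel (𝕜 : Type) [Field 𝕜] [CharZero 𝕜] (ι : Type) (m : ℕ) (s : ι → ℕ → ℤ)
    (c : ℕ → 𝕜) (hc0 : ∃ j ≤ m, c j ≠ 0)
    (hc : ∀ i, ∑ j ∈ range (m + 1), c j * ((s i j : ℤ) : 𝕜) = 0) :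
    ∃ c' : ℕ → ℚ, (∃ j ≤ m, c' j ≠ 0) ∧ ∀ i, ∑ j ∈ range (m + 1), c' j * (s i j : ℚ) = 0 := by
  obtain ⟨j0, hj0, hcj0⟩ := hc0
  obtain ⟨φ, hφ⟩ : ∃ φ : Module.Dual ℚ 𝕜, φ (c j0) ≠ 0 := by
    by_contra h
    push Not at h
    exact hcj0 ((Module.forall_dual_apply_eq_zero_iff ℚ (c j0)).1 h)
  refine ⟨fun j => φ (c j), ⟨j0, hj0, hφ⟩, fun i => ?_⟩
  have h1 := congrArg φ (hc i)
  rw [map_zero, map_sum] at h1
  rw [← h1]
  refine Finset.sum_congr rfl fun j _ => ?_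
  have h2 : c j * ((s i j : ℤ) : 𝕜) = ((s i j : ℤ) : ℚ) • c j := by
    rw [Algebra.smul_def, mul_comm]
    simp
  rw [h2, map_smul, smul_eq_mul, mul_comm]

/-- if no short relation exists then a recurrence of complementary order exists -/
lemma exists_rec (s : ℕ → ℤ) (u L M : ℕ) (hM : M ≤ L)
    (h : ∀ d : ℕ → ℚ, (∃ i < L - M, d i ≠ 0) →
      ∃ l < M, ∑ i ∈ range (L - M), d i * (s (u + l + i) : ℚ) ≠ 0) :
    ∃ c : ℕ → ℚ, ∀ i, i + M < L → (s (u + i + M) : ℚ) = ∑ l ∈ range M, c l * (s (u + i + l) : ℚ) := by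
  classical
  obtain ⟨A, hA⟩ : ∃ A : Matrix (Fin (L - M)) (Fin M) ℚ, A = Matrix.of fun (i : Fin (L - M)) (l : Fin M) =>
    (s (u + (i : ℕ) + (l : ℕ)) : ℚ) := ⟨_, rfl⟩
  have hli : LinearIndependent ℚ A.row := by
    rw [Fintype.linearIndependent_iff]
    intro g hg
    by_contra hcon
    push Not at hcon
    obtain ⟨i0, hi0⟩ := hcon
    obtain ⟨l, hl, hne⟩ := h (fun i => if hi : i < L - M then g ⟨i, hi⟩ else 0)
      ⟨i0, i0.2, by simpa [i0.2] using hi0⟩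
    apply hne
    have h1 := congrFun hg ⟨l, hl⟩
    rw [Finset.sum_apply] at h1
    rw [Pi.zero_apply] at h1
    rw [Finset.sum_range, ← h1]
    refine Finset.sum_congr rfl fun i _ => ?_
    simp only [i.2, dite_true, Pi.smul_apply, smul_eq_mul, hA, Matrix.row, Matrix.of_apply, Fin.eta]
    rw [show u + l + (i : ℕ) = u + (i : ℕ) + l by ring]
  have hrank : A.rank = L - M := by
    rw [LinearIndependent.rank_matrix hli, Fintype.card_fin]
  have hsurj : LinearMap.range A.mulVecLin = ⊤ := by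
    apply Submodule.eq_top_of_finrank_eq
    rw [← Matrix.rank, hrank]
    simp
  obtain ⟨c, hc⟩ : ∃ c : Fin M → ℚ, A.mulVecLin c =
      fun i : Fin (L - M) => (s (u + (i : ℕ) + M) : ℚ) := by
    have : (fun i : Fin (L - M) => (s (u + (i : ℕ) + M) : ℚ)) ∈ LinearMap.range A.mulVecLin := by
      rw [hsurj]; trivial
    exact this
  refine ⟨fun l => if hl : l < M then c ⟨l, hl⟩ else 0, fun i hi => ?_⟩
  have h1 := congrFun hc ⟨i, by omega⟩
  rw [Matrix.mulVecLin_apply, Matrix.mulVec, dotProduct] at h1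
  simp only [hA, Matrix.of_apply] at h1
  rw [← h1, Finset.sum_range]
  refine Finset.sum_congr rfl fun l _ => ?_
  simp only [l.2, dite_true, Fin.eta]
  ring

end Pool.Agent.Y928.PL
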