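import Pool.Agent.Y928.PL.Core
import Pool.Agent.Y928.JL.GenU

/-!
# Linear complexity of several numbers, each in its own base
-/

set_option autoImplicit false

namespace Pool.Agent.Y928.PL

open Finset Polynomial
open Pool.Agent.H831R3.LC (W W_eq W_mul W_sub)
open Pool.Agent.W47.JL

lemma triv2 (x e f : ℝ) (b : ℕ) (hb : 2 ≤ b) (he : 0 ≤ e) (hf : 0 ≤ f) :
    ∃ q : ℕ, 1 ≤ q ∧ ∃ p : ℤ, (q : ℝ) ≤ (b : ℝ) ^ e ∧ |(q : ℝ) * x - p| ≤ (b : ℝ) ^ f := by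
  refine ⟨1, le_rfl, round x, ?_⟩
  have hbR : (2 : ℝ) ≤ b := by exact_mod_cast hb
  have h1 := abs_sub_round x
  have h2 : (1 : ℝ) ≤ (b : ℝ) ^ e := Real.one_le_rpow (by linarith) he
  have h3 : (1 : ℝ) ≤ (b : ℝ) ^ f := Real.one_le_rpow (by linarith) hf
  push_cast
  rw [one_mul]
  constructor <;> linarith

/-- a short recurrence of a representation gives a good approximation, both bounds -/
theorem core2 (h b : ℕ) (hh : 1 ≤ h) (hb : 2 ≤ b) (x : ℝ) (s : ℕ → ℤ)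
    (hs : ∀ i, |s i| ≤ (b ^ h : ℕ))
    (hx : HasSum (fun j : ℕ => (s j : ℝ) / (b : ℝ) ^ (j + 1)) x) (L m : ℕ) (c : ℕ → ℚ)
    (hc : ∀ i, i + m < L → (s (i + m) : ℚ) = ∑ l ∈ range m, c l * (s (i + l) : ℚ)) :
    ∃ q : ℕ, 1 ≤ q ∧ ∃ p : ℤ, (q : ℝ) ≤ (b : ℝ) ^ ((m : ℝ) + 15 * h * err m + h) ∧
      |(q : ℝ) * x - p| ≤ (b : ℝ) ^ (((m : ℝ) + 15 * h * err m + h) - L) := by
  obtain ⟨k0, K, hk0, hK, hpar⟩ := params m
  have hhR : (1 : ℝ) ≤ h := by exact_mod_cast hh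
  have hbR : (2 : ℝ) ≤ b := by exact_mod_cast hb
  have hb0 : (0 : ℝ) < b := by linarith
  have hlb0 : 0 < Real.log b := Real.log_pos (by linarith)
  have hm0 : (0 : ℝ) ≤ m := Nat.cast_nonneg m
  have hk00 : (0 : ℝ) ≤ k0 := Nat.cast_nonneg k0
  have herr := err_ge m
  obtain ⟨D, hD⟩ : ∃ D, D = m + k0 := ⟨_, rfl⟩
  have hDR : (D : ℝ) = m + k0 := by rw [hD]; push_cast; ring
  obtain ⟨H, hH⟩ : ∃ H : ℕ, H = ((m + 1 + k0) * b ^ h) ^ K := ⟨_, rfl⟩
  obtain ⟨X', hX'⟩ : ∃ X' : ℝ, X' = ((D : ℝ) + 1) * H * (b ^ h : ℕ) := ⟨_, rfl⟩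
  have hH1 : 1 ≤ H := by rw [hH]; exact Nat.one_le_pow _ _ (by positivity)
  have hHR : (1 : ℝ) ≤ H := by exact_mod_cast hH1
  have hX'1 : 1 ≤ X' := by
    rw [hX']
    have h1 : (1 : ℝ) ≤ ((b ^ h : ℕ) : ℝ) := by exact_mod_cast Nat.one_le_pow _ _ (by omega)
    have h2 : (1 : ℝ) ≤ ((D : ℝ) + 1) * H := by nlinarith [Nat.cast_nonneg (α := ℝ) D]
    nlinarith
  have hX'0 : 0 < X' := by linarith
  obtain ⟨M', hM'⟩ : ∃ M' : ℝ, M' = D + Real.log X' / Real.log b := ⟨_, rfl⟩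
  have hbM : (b : ℝ) ^ M' = (b : ℝ) ^ D * X' := by
    rw [hM', Real.rpow_add hb0, Real.rpow_natCast]
    congr 1
    rw [Real.rpow_def_of_pos hb0, mul_div_cancel₀ _ hlb0.ne', Real.exp_log hX'0]
  have hM'le : M' ≤ m + 15 * h * err m + h := by
    have h1 := hpar b hbR
    obtain ⟨Y, hY⟩ : ∃ Y : ℝ, Y = ((m : ℝ) + k0 + 1) * (((m : ℝ) + 1 + k0) * b) ^ K := ⟨_, rfl⟩
    rw [← hY] at h1
    have hYe : Real.log Y = Real.log ((m : ℝ) + k0 + 1) + K * (Real.log ((m : ℝ) + 1 + k0) +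
        Real.log b) := by
      rw [hY, Real.log_mul (by positivity) (by positivity), Real.log_pow,
        Real.log_mul (by positivity) (by positivity)]
    have hXe : Real.log X' = Real.log ((m : ℝ) + k0 + 1) + K * (Real.log ((m : ℝ) + 1 + k0) +
        h * Real.log b) + h * Real.log b := by
      rw [hX', hH, hDR]
      push_cast
      rw [Real.log_mul (by positivity) (by positivity), Real.log_mul (by positivity) (by positivity),
        Real.log_pow, Real.log_mul (by positivity) (by positivity), Real.log_pow]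
    have hl1 : 0 ≤ Real.log ((m : ℝ) + k0 + 1) := Real.log_nonneg (by linarith)
    have hl2 : 0 ≤ Real.log ((m : ℝ) + 1 + k0) := Real.log_nonneg (by linarith)
    have hK0 : (0 : ℝ) ≤ K := Nat.cast_nonneg K
    have h2 : Real.log X' ≤ h * Real.log Y + h * Real.log b := by
      rw [hXe, hYe]
      have e1 : Real.log ((m : ℝ) + k0 + 1) ≤ h * Real.log ((m : ℝ) + k0 + 1) := by nlinarith
      have e2 : K * Real.log ((m : ℝ) + 1 + k0) ≤ h * (K * Real.log ((m : ℝ) + 1 + k0)) := by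
        nlinarith [mul_nonneg hK0 hl2]
      nlinarith
    have h3 : Real.log X' / Real.log b ≤ h * (Real.log Y / Real.log b) + h := by
      rw [div_le_iff₀ hlb0]
      have e1 : (h * (Real.log Y / Real.log b) + h) * Real.log b = h * Real.log Y + h * Real.log b := by
        field_simp
      rw [e1]
      exact h2
    have h4 : Real.log Y / Real.log b ≤ m + 15 * err m - (m + k0) := by linarith
    have h5 := mul_le_mul_of_nonneg_left h4 (by linarith : (0 : ℝ) ≤ h)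
    rw [hM', hDR]
    nlinarith
  -- it suffices to have the bound with `M'`
  have hfin : (∃ q : ℕ, 1 ≤ q ∧ ∃ p : ℤ, (q : ℝ) ≤ (b : ℝ) ^ M' ∧
      |(q : ℝ) * x - p| ≤ (b : ℝ) ^ (M' - L)) →
      ∃ q : ℕ, 1 ≤ q ∧ ∃ p : ℤ, (q : ℝ) ≤ (b : ℝ) ^ ((m : ℝ) + 15 * h * err m + h) ∧
      |(q : ℝ) * x - p| ≤ (b : ℝ) ^ (((m : ℝ) + 15 * h * err m + h) - L) := by
    rintro ⟨q, hq, p, hq2, hp⟩
    exact ⟨q, hq, p, hq2.trans (Real.rpow_le_rpow_of_exponent_le (by linarith) (by linarith)),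
      hp.trans (Real.rpow_le_rpow_of_exponent_le (by linarith) (by linarith))⟩
  apply hfin
  have hM'D : (D : ℝ) ≤ M' := by
    rw [hM']
    have := div_nonneg (Real.log_nonneg hX'1) hlb0.le
    linarith
  have hD0 : (0 : ℝ) ≤ D := Nat.cast_nonneg D
  by_cases hL : D ≤ L
  swap
  · have : (L : ℝ) ≤ D := by exact_mod_cast (by omega : L ≤ D)
    exact triv2 x _ _ b hb (by linarith) (by linarith)
  obtain ⟨r, hr⟩ : ∃ r, L = r + D := ⟨L - D, by omega⟩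
  have hrR : (L : ℝ) = r + D := by rw [hr]; push_cast; ring
  by_cases hbig : (D + 1) * H * b ^ h < b ^ r
  swap
  · push Not at hbig
    have h1 : (b : ℝ) ^ r ≤ X' := by
      rw [hX']
      exact_mod_cast hbig
    have h2 := Real.log_le_log (by positivity) h1
    rw [Real.log_pow] at h2
    have h3 : (r : ℝ) ≤ Real.log X' / Real.log b := by
      rw [le_div_iff₀ hlb0]; exact h2
    exact triv2 x _ _ b hb (by linarith) (by rw [hrR]; linarith)
  -- truncate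
  obtain ⟨A, hA0, hA1⟩ : ∃ A : ℕ → ℤ, A 0 = 0 ∧ ∀ i, A (i + 1) = b * A i + s i :=
    ⟨fun i => Nat.rec 0 (fun i z => (b : ℤ) * z + s i) i, rfl, fun _ => rfl⟩
  obtain ⟨a, ha⟩ : ∃ a : ℕ → ℤ, a = fun i => if i < L then s i else 0 := ⟨_, rfl⟩
  have ha1 : ∀ i, i < L → a i = s i := by
    intro i hi
    rw [ha]; simp [hi]
  have ha2 : ∀ i, |a i| ≤ (b ^ h : ℕ) := by
    intro i
    by_cases hi : i < L
    · rw [ha1 i hi]; exact hs i
    · rw [ha]; simp [hi]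
  obtain ⟨A', hA'0, hA'1⟩ : ∃ A : ℕ → ℤ, A 0 = 0 ∧ ∀ i, A (i + 1) = b * A i + a i :=
    ⟨fun i => Nat.rec 0 (fun i z => (b : ℤ) * z + a i) i, rfl, fun _ => rfl⟩
  have hAA : ∀ i ≤ L, A' i = A i := by
    intro i
    induction i with
    | zero => intro _; rw [hA0, hA'0]
    | succ i ih =>
      intro hi
      rw [hA'1, hA1, ih (by omega), ha1 i (by omega)]
  obtain ⟨t, ht0, htd, htH, htr⟩ := Pool.Agent.W928.JL.small 1 (fun _ => a) (b ^ h)
    (Nat.one_le_pow _ _ (by omega))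
    (fun _ => ha2) m k0 r L K hk0 hK
    (by omega) c (fun _ i hi => by
      rw [ha1 _ (by omega), hc i hi]
      refine Finset.sum_congr rfl fun l hl => ?_
      rw [mem_range] at hl
      rw [ha1 _ (by omega)])
  obtain ⟨t', htd', htH', htr', ht0'⟩ := Pool.Agent.W639.JL.desc 1 (fun _ => a) (b ^ h) b
    H D r hb (fun _ => ha2) hbig t (by rw [hD]; exact htd) ht0 (by rw [hH]; exact htH) htr
  obtain ⟨p, hp⟩ := approxR x b H (b ^ h) r D a t' htH' htd' (htr' 0) A' hA'1 (fun i hi => by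
    rw [hAA i (by omega)]
    exact (remainders b (b ^ h) hb s hs x hx A hA0 hA1 i).2)
  obtain ⟨q, hq⟩ : ∃ q : ℕ, q = (t'.eval (b : ℤ)).natAbs := ⟨_, rfl⟩
  have hq1 : 1 ≤ q := by rw [hq]; exact Int.natAbs_pos.2 ht0'
  have hqR : (q : ℝ) = |((t'.eval (b : ℤ) : ℤ) : ℝ)| := by
    rw [hq, Nat.cast_natAbs, Int.cast_abs]
  have hqle : (q : ℝ) ≤ (b : ℝ) ^ D * X' := by
    have h1 := eval_le t' H D b (by omega) htH' htd'
    have h2 : |((t'.eval (b : ℤ) : ℤ) : ℝ)| ≤ ((D : ℝ) + 1) * H * (b : ℝ) ^ D := by exact_mod_cast h1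
    have h3 : (1 : ℝ) ≤ ((b ^ h : ℕ) : ℝ) := by exact_mod_cast Nat.one_le_pow _ _ (by omega)
    rw [hqR, hX']
    calc _ ≤ ((D : ℝ) + 1) * H * (b : ℝ) ^ D := h2
      _ = (b : ℝ) ^ D * (((D : ℝ) + 1) * H * 1) := by ring
      _ ≤ (b : ℝ) ^ D * (((D : ℝ) + 1) * H * ((b ^ h : ℕ) : ℝ)) := by gcongr
  obtain ⟨p', hp'⟩ : ∃ p' : ℤ, |(q : ℝ) * x - p'| = |((t'.eval (b : ℤ) : ℤ) : ℝ) * x - p| := by
    rcases abs_cases ((t'.eval (b : ℤ) : ℤ) : ℝ) with ⟨h1, _⟩ | ⟨h1, _⟩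
    · exact ⟨p, by rw [hqR, h1]⟩
    · refine ⟨-p, ?_⟩
      rw [hqR, h1, ← abs_neg]
      congr 1
      push_cast
      ring
  refine ⟨q, hq1, p', by rw [hbM]; exact hqle, ?_⟩
  rw [hp']
  have hpX : |((t'.eval (b : ℤ) : ℤ) : ℝ) * x - p| * (b : ℝ) ^ r ≤ X' := by
    rw [hX']
    push_cast at hp ⊢
    exact hp
  have e1 : (b : ℝ) ^ (M' - L) = X' / (b : ℝ) ^ r := by
    rw [Real.rpow_sub hb0, hbM, Real.rpow_natCast, hr, pow_add]
    field_simp
  rw [e1, le_div_iff₀ (by positivity)]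
  exact hpX

/-- **Several numbers, each in its own base.** -/
theorem mixed (h : ℕ) (hh : 1 ≤ h) (μ c0 : ℝ) (hμ : 1 ≤ μ) (hc0 : 0 < c0) :
    ∃ C : ℝ, 0 < C ∧ ∀ (T : Finset ℕ) (x : ℕ → ℝ), T.Nonempty →
      (∀ q : ℕ, 1 ≤ q → ∀ p : ℕ → ℤ, ∃ j ∈ T, c0 ≤ (q : ℝ) ^ (μ - 1) * |(q : ℝ) * x j - p j|) →
      ∀ b : ℕ → ℕ, (∀ j ∈ T, 2 ≤ b j) → ∀ s : ℕ → ℕ → ℤ,
      (∀ j ∈ T, ∀ i, |s j i| ≤ (b j ^ h : ℕ)) →
      (∀ j ∈ T, ∃ n : ℤ, HasSum (fun i : ℕ => (s j i : ℝ) / (b j : ℝ) ^ (i + 1)) (x j - n)) →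
      ∀ L m : ℕ → ℕ, (∀ j ∈ T, ∃ c : ℕ → ℚ, ∀ i, i + m j < L j →
        (s j (i + m j) : ℚ) = ∑ l ∈ range (m j), c l * (s j (i + l) : ℚ)) →
      ∃ j ∈ T, (L j : ℝ) * Real.log (b j) ≤ (m j + C * err (m j)) * Real.log (b j) +
        μ * ∑ i ∈ T, (m i + C * err (m i)) * Real.log (b i) := by
  have hhR : (1 : ℝ) ≤ h := by exact_mod_cast hh
  refine ⟨17 * h + 2 * |Real.log c0|, by positivity, ?_⟩
  intro T x hT hM b hb s hs hx L m hc
  have key : ∀ j ∈ T, ∃ q : ℕ, 1 ≤ q ∧ ∃ p : ℤ,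
      (q : ℝ) ≤ (b j : ℝ) ^ ((m j : ℝ) + 15 * h * err (m j) + h) ∧
      |(q : ℝ) * x j - p| ≤ (b j : ℝ) ^ (((m j : ℝ) + 15 * h * err (m j) + h) - L j) := by
    intro j hj
    obtain ⟨n, hn⟩ := hx j hj
    obtain ⟨c, hc'⟩ := hc j hj
    obtain ⟨q, hq, p, h1, h2⟩ := core2 h (b j) hh (hb j hj) (x j - n) (s j) (hs j hj) hn (L j) (m j) c hc'
    refine ⟨q, hq, p + q * n, h1, ?_⟩
    have e : (q : ℝ) * x j - ((p + q * n : ℤ) : ℝ) = (q : ℝ) * (x j - n) - p := by push_cast; ring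
    rw [e]
    exact h2
  choose! q hq p hqb hpb using key
  obtain ⟨j, hj, hjm⟩ := hM (∏ i ∈ T, q i)
    (Nat.pos_of_ne_zero (Finset.prod_ne_zero_iff.2 fun i hi => by have := hq i hi; omega))
    (fun j => p j * ((∏ i ∈ T.erase j, q i : ℕ) : ℤ))
  refine ⟨j, hj, ?_⟩
  obtain ⟨Q, hQ⟩ : ∃ Q : ℝ, Q = ((∏ i ∈ T, q i : ℕ) : ℝ) := ⟨_, rfl⟩
  rw [← hQ] at hjm
  have hQ1 : 1 ≤ Q := by
    have : 1 ≤ ∏ i ∈ T, q i :=
      Nat.pos_of_ne_zero (Finset.prod_ne_zero_iff.2 fun i hi => by have := hq i hi; omega)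
    rw [hQ]
    exact_mod_cast this
  have hbR : ∀ i ∈ T, (2 : ℝ) ≤ b i := fun i hi => by exact_mod_cast hb i hi
  have hlb : ∀ i ∈ T, 0.69 ≤ Real.log (b i) := by
    intro i hi
    have h1 := Real.log_two_gt_d9
    have h2 := Real.log_le_log (by norm_num) (hbR i hi)
    linarith
  obtain ⟨M, hMd⟩ : ∃ M : ℕ → ℝ, M = fun i => (m i : ℝ) + 15 * h * err (m i) + h := ⟨_, rfl⟩
  have hMe : ∀ i, (m i : ℝ) + 15 * h * err (m i) + h = M i := fun i => by rw [hMd]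
  simp only [hMe] at hqb hpb
  have hlogQ : Real.log Q ≤ ∑ i ∈ T, M i * Real.log (b i) := by
    rw [hQ]
    push_cast
    rw [Real.log_prod (fun i hi => by have := hq i hi; positivity)]
    refine Finset.sum_le_sum fun i hi => ?_
    have h1 := Real.log_le_log (by have := hq i hi; positivity) (hqb i hi)
    rw [Real.log_rpow (by have := hbR i hi; linarith)] at h1
    exact h1
  have hQj : Q = q j * ((∏ i ∈ T.erase j, q i : ℕ) : ℝ) := by
    rw [hQ, ← Finset.mul_prod_erase T q hj]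
    push_cast
    ring
  have hqj1 : (1 : ℝ) ≤ q j := by exact_mod_cast hq j hj
  have hPe : (0 : ℝ) ≤ ((∏ i ∈ T.erase j, q i : ℕ) : ℝ) := Nat.cast_nonneg _
  have hbj0 : (0 : ℝ) < b j := by have := hbR j hj; linarith
  have h1 : c0 ≤ Q ^ μ * (b j : ℝ) ^ (M j - L j) := by
    have e1 : Q * x j - ((p j * ((∏ i ∈ T.erase j, q i : ℕ) : ℤ) : ℤ) : ℝ) =
        ((∏ i ∈ T.erase j, q i : ℕ) : ℝ) * (q j * x j - p j) := by
      rw [hQj]
      push_cast
      ring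
    rw [e1, abs_mul, abs_of_nonneg hPe] at hjm
    have e2 : ((∏ i ∈ T.erase j, q i : ℕ) : ℝ) ≤ Q := by
      rw [hQj]
      nlinarith
    calc c0 ≤ Q ^ (μ - 1) * (((∏ i ∈ T.erase j, q i : ℕ) : ℝ) * |(q j : ℝ) * x j - p j|) := hjm
      _ ≤ Q ^ (μ - 1) * (Q * (b j : ℝ) ^ (M j - L j)) := by
          apply mul_le_mul_of_nonneg_left _ (by positivity)
          exact mul_le_mul e2 (hpb j hj) (abs_nonneg _) (by linarith)
      _ = Q ^ μ * (b j : ℝ) ^ (M j - L j) := by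
          have : Q ^ μ = Q ^ (μ - 1) * Q := by
            conv_rhs => rw [← Real.rpow_one Q, ← Real.rpow_mul (by linarith), one_mul]
            rw [← Real.rpow_add (by linarith)]
            congr 1
            ring
          rw [this]
          ring
  have h2 := Real.log_le_log hc0 h1
  rw [Real.log_mul (by positivity) (by positivity), Real.log_rpow (by linarith),
    Real.log_rpow hbj0] at h2
  have h3 : -|Real.log c0| ≤ Real.log c0 := neg_abs_le _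
  have hlj := hlb j hj
  have hcmp : ∀ i ∈ T, M i * Real.log (b i) ≤
      (m i + (17 * h + 2 * |Real.log c0|) * err (m i)) * Real.log (b i) := by
    intro i hi
    have h4 := err_ge (m i)
    have h5 := hlb i hi
    have h6 := abs_nonneg (Real.log c0)
    apply mul_le_mul_of_nonneg_right _ (by linarith)
    rw [← hMe]
    nlinarith
  have hcmpj : M j * Real.log (b j) + |Real.log c0| ≤
      (m j + (17 * h + 2 * |Real.log c0|) * err (m j)) * Real.log (b j) := by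
    have h4 := err_ge (m j)
    have h6 := abs_nonneg (Real.log c0)
    rw [← hMe]
    have h7 : (h : ℝ) ≤ 2 * h * err (m j) := by nlinarith
    have h8 : |Real.log c0| ≤ 2 * |Real.log c0| * err (m j) * Real.log (b j) := by
      have : 1 ≤ 2 * err (m j) * Real.log (b j) := by nlinarith
      nlinarith
    nlinarith
  have hsum := Finset.sum_le_sum hcmp
  have h9 : μ * Real.log Q ≤ μ * ∑ i ∈ T, (m i + (17 * h + 2 * |Real.log c0|) * err (m i)) *
      Real.log (b i) := mul_le_mul_of_nonneg_left (hlogQ.trans hsum) (by linarith)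
  nlinarith

end Pool.Agent.Y928.PL
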